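import Mathlib
import Pool.Agent.Lib.MP_3e83d2_al.Burnside
import Pool.Agent.Lib.MP_3e83d2_al.Construction

set_option autoImplicit false

namespace Pool.Agent.Results.MP_3e83d2_al.ExponentFortyEight

/-- `rho k G`: the proportion of elements `g` of `G` whose order divides `k`. -/
noncomputable def rho (k : ℕ) (G : Type) [Group G] : ℝ :=
  (Nat.card {g : G // orderOf g ∣ k} : ℝ) / (Nat.card G : ℝ)

/-- `eps k`: the supremum of `rho k G` over all finite non-soluble groups `G`. -/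
noncomputable def eps (k : ℕ) : ℝ :=
  sSup {r : ℝ | ∃ (G : Type) (_ : Group G) (_ : Finite G), ¬ Group.IsSolvable G ∧ r = rho k G}

theorem rho_le_one (k : ℕ) (G : Type) [Group G] [Finite G] : rho k G ≤ 1 := by
  unfold rho
  have hpos : (0 : ℝ) < Nat.card G := by exact_mod_cast (Nat.card_pos : 0 < Nat.card G)
  rw [div_le_one hpos]
  exact_mod_cast Nat.card_le_card_of_injective (fun g : {g : G // orderOf g ∣ k} => g.1)
    Subtype.val_injective

theorem exponent_of_rho {k : ℕ} {G : Type} [Group G] [Finite G] (h : rho k G = 1) :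
    Monoid.exponent G ∣ k := by
  unfold rho at h
  have hpos : (0 : ℝ) < Nat.card G := by exact_mod_cast (Nat.card_pos : 0 < Nat.card G)
  rw [div_eq_one_iff_eq hpos.ne'] at h
  have h1 : Nat.card {g : G // orderOf g ∣ k} = Nat.card G := by exact_mod_cast h
  have h2 : Function.Bijective (fun g : {g : G // orderOf g ∣ k} => g.1) :=
    (Nat.bijective_iff_injective_and_card _).2 ⟨Subtype.val_injective, h1⟩
  rw [Monoid.exponent_dvd_iff_forall_pow_eq_one]
  intro g
  obtain ⟨⟨x, hx⟩, rfl⟩ := h2.2 g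
  exact orderOf_dvd_iff_pow_eq_one.1 hx

theorem exists_large_real (m : ℕ) : ∃ (G : Type) (_ : Group G) (_ : Finite G),
    ¬ Group.IsSolvable G ∧ 1 - (1 / 2 : ℝ) ^ m ≤ rho 48 G := by
  obtain ⟨G, i1, i2, h1, h2⟩ := Pool.Agent.Lib.MP_3e83d2_al.exists_large m
  refine ⟨G, i1, i2, h1, ?_⟩
  unfold rho
  have hpos : (0 : ℝ) < Nat.card G := by exact_mod_cast (Nat.card_pos : 0 < Nat.card G)
  rw [le_div_iff₀ hpos]
  have h3 : ((2 ^ m - 1 : ℕ) : ℝ) * Nat.card G ≤ (2 : ℝ) ^ m * Nat.card {g : G // orderOf g ∣ 48} := by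
    exact_mod_cast h2
  rw [Nat.cast_sub Nat.one_le_two_pow] at h3
  push_cast at h3
  have h2m : (1 / 2 : ℝ) ^ m * 2 ^ m = 1 := by rw [← mul_pow]; norm_num
  have hp : (0 : ℝ) < (1 / 2 : ℝ) ^ m := by positivity
  calc (1 - (1 / 2 : ℝ) ^ m) * (Nat.card G : ℝ)
      = (1 / 2 : ℝ) ^ m * ((2 ^ m - 1) * Nat.card G) := by
        have : (1 / 2 : ℝ) ^ m * ((2 ^ m - 1) * (Nat.card G : ℝ))
          = ((1 / 2 : ℝ) ^ m * 2 ^ m) * Nat.card G - (1 / 2 : ℝ) ^ m * Nat.card G := by ring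
        rw [this, h2m]; ring
    _ ≤ (1 / 2 : ℝ) ^ m * (2 ^ m * Nat.card {g : G // orderOf g ∣ 48}) :=
        mul_le_mul_of_nonneg_left h3 hp.le
    _ = Nat.card {g : G // orderOf g ∣ 48} := by rw [← mul_assoc, h2m, one_mul]

theorem eps48 : eps 48 = 1 := by
  apply le_antisymm
  · apply csSup_le
    · obtain ⟨G, i1, i2, h1, _⟩ := exists_large_real 0
      exact ⟨_, G, i1, i2, h1, rfl⟩
    · rintro r ⟨G, i1, i2, _, rfl⟩
      exact rho_le_one 48 G
  · have hb : BddAbove {r : ℝ | ∃ (G : Type) (_ : Group G) (_ : Finite G),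
        ¬ Group.IsSolvable G ∧ r = rho 48 G} := by
      refine ⟨1, ?_⟩
      rintro r ⟨G, i1, i2, _, rfl⟩
      exact rho_le_one 48 G
    apply le_of_forall_lt
    intro c hc
    obtain ⟨m, hm⟩ := exists_pow_lt_of_lt_one (sub_pos.2 hc) (by norm_num : (1 / 2 : ℝ) < 1)
    obtain ⟨G, i1, i2, h1, h2⟩ := exists_large_real m
    have h3 : rho 48 G ≤ eps 48 := le_csSup hb ⟨G, i1, i2, h1, rfl⟩
    linarith

/-- The supremum `eps 48` equals `1`, no finite non-soluble group has exponent dividing `48`, and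
`eps 48` is not attained by any finite non-soluble group. -/
theorem result :
    eps 48 = 1 ∧ ∀ (G : Type) [Group G] [Finite G], ¬ Group.IsSolvable G →
      ¬ (Monoid.exponent G ∣ 48) ∧ rho 48 G < eps 48 := by
  refine ⟨eps48, fun G _ _ hG =>
    ⟨fun h => hG (Pool.Agent.Lib.MP_3e83d2_al.solvable_of_exponent h), ?_⟩⟩
  rw [eps48]
  exact lt_of_le_of_ne (rho_le_one 48 G)
    (fun h => hG (Pool.Agent.Lib.MP_3e83d2_al.solvable_of_exponent (exponent_of_rho h)))

end Pool.Agent.Results.MP_3e83d2_al.ExponentFortyEight
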